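import Pool.Agent.H96.T3.Defs
import Pool.Agent.H98.TQ.Ineq13

/-!
# Project T3 (MP_a3214d): the exponent for `r = n - 2`, `n ≥ 7`
-/

set_option autoImplicit false

open Pool.Agent.H92.SQ2 (gg WW)
open Pool.Agent.H96.T3 (lam3 mu3 ee3)

namespace Pool.Agent.H98.T7

theorem mu3_pos (n : ℕ) (hn : 7 ≤ n) : 0 < mu3 n (n - 2) := by
  have hn' : (7 : ℝ) ≤ n := by exact_mod_cast hn
  have hgg : gg n (n - 2 + 1) = n - 1 := by
    obtain ⟨m, rfl⟩ : ∃ m, n = m + 1 := ⟨n - 1, by omega⟩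
    rw [show m + 1 - 2 + 1 = m by omega, Pool.Agent.H98.TQ.tq33_gg m (by omega)]
    omega
  have h1 : ((n - 1 : ℕ) : ℝ) = (n : ℝ) - 1 := by
    rw [Nat.cast_sub (by omega)]; norm_num
  have hF : (((n ^ 2 + 2 * n) / 4 : ℕ) : ℝ) ≤ ((n : ℝ) ^ 2 + 2 * n) / 4 := by
    have := @Nat.cast_div_le ℝ _ _ _ (n ^ 2 + 2 * n) 4
    push_cast at this ⊢
    exact this
  have hW : WW n = ((n : ℝ) - 1) * (n + 2) / 2 := rfl
  have hlam : lam3 n (n - 2) < WW n / 2 := by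
    rw [lam3, hgg, h1, hW]
    apply max_lt
    · nlinarith
    · nlinarith
  rw [mu3]
  linarith

theorem ee3_gt (n r : ℕ) (hn : 3 ≤ n) (hrn : r + 2 ≤ n) (hμ : 0 < mu3 n r) :
    1 / 2 + 1 / (n : ℝ) < ee3 n r := by
  have hn' : (3 : ℝ) ≤ n := by exact_mod_cast hn
  have hn0 : (0 : ℝ) < n := by linarith
  have hr : (r : ℝ) + 2 ≤ n := by exact_mod_cast hrn
  have hr0 : (0 : ℝ) ≤ r := Nat.cast_nonneg _
  have hW : WW n = ((n : ℝ) - 1) * (n + 2) / 2 := rfl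
  have hWr : 0 < WW n - (r : ℝ) := by
    rw [hW]; nlinarith
  have hlam : 0 ≤ lam3 n r := by
    rw [lam3]
    exact le_max_of_le_left (by positivity)
  have hX : 0 < (n : ℝ) * (n - 1) - 2 * mu3 n r := by
    rw [mu3, hW]
    nlinarith
  rw [ee3, lt_div_iff₀ hX]
  have h1 : mu3 n r * WW n / (WW n - (r : ℝ)) < mu3 n r * (((n : ℝ) + 2) / n) := by
    rw [mul_div_assoc]
    apply mul_lt_mul_of_pos_left _ hμ
    rw [div_lt_div_iff₀ hWr hn0, hW]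
    nlinarith
  have h2 : (1 / 2 + 1 / (n : ℝ)) * ((n : ℝ) * (n - 1) - 2 * mu3 n r) =
      WW n - mu3 n r * (((n : ℝ) + 2) / n) := by
    rw [hW]
    field_simp
  rw [h2]
  linarith

end Pool.Agent.H98.T7
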